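import Pool.Agent.H55.SR.Own

/-!
# Colourings without monochromatic copies
-/

namespace Pool.Agent.H55.SR

open Finset
open scoped Classical

variable {V : Type*} [Fintype V]

/-- Iterated splitting. -/
theorem colour {P : V → Finset V} {o : V → V} {N e : ℕ} {lam : V → ℕ}
    (hP : ∀ u, ∀ w ∈ P u, lam u < lam w) (ho : ∀ u, o u ∈ P u → lam (o u) = lam u + 1)
    (d : ℕ) {r : ℕ} (hr : 1 ≤ r) :
    ∀ S : Finset V, Good P o N e S (r * d) →
      ∃ c : V → ℕ, (∀ v, c v < r) ∧ ∀ i < r, Good P o N e (S.filter (fun v => c v = i)) d := by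
  induction r, hr using Nat.le_induction with
  | base =>
    intro S hS
    rw [one_mul] at hS
    refine ⟨fun _ => 0, fun _ => one_pos, fun i hi => ?_⟩
    have hi0 : i = 0 := by omega
    subst hi0
    rwa [filter_true_of_mem fun _ _ => rfl]
  | succ r hr ih =>
    intro S hS
    have hS' : Good P o N e S (d + r * d) := by
      rw [show d + r * d = (r + 1) * d by ring]
      exact hS
    obtain ⟨A, B, hAB, hdis, hA, hB⟩ := split hP ho hS'
    obtain ⟨c, hc, hc2⟩ := ih B hB
    refine ⟨fun v => if v ∈ A then r else c v, fun v => ?_, fun i hi => ?_⟩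
    · show (if v ∈ A then r else c v) < r + 1
      split_ifs
      · omega
      · have := hc v
        omega
    · by_cases hir : i = r
      · subst hir
        have h1 : S.filter (fun v => (if v ∈ A then i else c v) = i) = A := by
          ext v
          rw [mem_filter]
          constructor
          · rintro ⟨-, h2⟩
            by_contra hv
            rw [if_neg hv] at h2
            have := hc v
            omega
          · intro hv
            refine ⟨?_, if_pos hv⟩
            rw [← hAB]
            exact mem_union_left _ hv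
        rw [h1]
        exact hA
      · have h1 : S.filter (fun v => (if v ∈ A then r else c v) = i) =
            B.filter (fun v => c v = i) := by
          ext v
          rw [mem_filter, mem_filter]
          constructor
          · rintro ⟨hvS, h2⟩
            by_cases hv : v ∈ A
            · rw [if_pos hv] at h2
              omega
            · rw [if_neg hv] at h2
              rw [← hAB, mem_union] at hvS
              exact ⟨hvS.resolve_left hv, h2⟩
          · rintro ⟨hvB, h2⟩
            refine ⟨?_, ?_⟩
            · rw [← hAB]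
              exact mem_union_right _ hvB
            · rw [if_neg (fun hv => (disjoint_left.mp hdis hv hvB))]
              exact h2
        rw [h1]
        exact hc2 i (by omega)

/-- A graph `G` with vertex sets `X`, `Y` such that all vertices in `Y` have at least `d`
neighbours in `X` cannot be embedded into a good set with parameter `d` if `Y` is large compared
with `X`. -/
theorem no_copy (F : SimpleGraph V) {N m R d : ℕ} (hm0 : 1 ≤ m) {lam : V → ℕ} {o : V → V}
    (hsame : ∀ u, m * (same F lam u).card ≤ R * N) {C : Finset V}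
    (hC : Good (par F lam) o N (m * R) C d)
    {W : Type*} (G : SimpleGraph W) (X Y : Finset W)
    (hXY : ∀ y ∈ Y, d ≤ (X.filter (fun x => G.Adj y x)).card)
    (hcard : X.card * (d * N + m * R + R * N / m + d) < Y.card)
    (f : W → V) (hinj : Function.Injective f) (hf : ∀ a b, G.Adj a b → F.Adj (f a) (f b))
    (hfC : ∀ a, f a ∈ C) : False := by
  -- the vertices near the members of X
  let nr : V → Finset V := fun x => same F lam x ∪ (par F lam x ∩ C)
  let own : V → Finset V := fun x =>
    C.filter (fun u => (par F lam u ∩ C).card = d ∧ o u = x)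
  have hnr : ∀ x ∈ C, (nr x).card ≤ R * N / m + d := by
    intro x hx
    refine (card_union_le _ _).trans (Nat.add_le_add ?_ (hC.g1 x hx))
    rw [Nat.le_div_iff_mul_le hm0, mul_comm]
    exact hsame x
  have hown : ∀ x ∈ C, (own x).card ≤ d * N + m * R := by
    intro x hx
    exact le_trans (Nat.le_add_right _ _) (hC.g3 x hx)
  have hsub : Y.image f ⊆ X.biUnion (fun x => nr (f x) ∪ own (f x)) := by
    intro w hw
    obtain ⟨y, hy, rfl⟩ := mem_image.mp hw
    by_contra hnot
    have hnot' : ∀ x ∈ X, f y ∉ nr (f x) ∧ f y ∉ own (f x) := by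
      intro x hx
      refine ⟨fun h => hnot ?_, fun h => hnot ?_⟩
      · rw [mem_biUnion]
        exact ⟨x, hx, mem_union_left _ h⟩
      · rw [mem_biUnion]
        exact ⟨x, hx, mem_union_right _ h⟩
    have hsub2 : (X.filter (fun x => G.Adj y x)).image f ⊆ par F lam (f y) ∩ C := by
      intro v hv
      obtain ⟨x, hx, rfl⟩ := mem_image.mp hv
      rw [mem_filter] at hx
      have h1 := (hnot' x hx.1).1
      have hadj := hf y x hx.2
      rw [mem_inter]
      refine ⟨?_, hfC x⟩
      unfold par
      rw [mem_filter]
      refine ⟨mem_univ _, hadj, ?_⟩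
      by_contra hle
      rw [not_lt] at hle
      apply h1
      rcases hle.lt_or_eq with h2 | h2
      · refine mem_union_right _ (mem_inter.mpr ⟨?_, hfC y⟩)
        unfold par
        rw [mem_filter]
        exact ⟨mem_univ _, hadj.symm, h2⟩
      · refine mem_union_left _ ?_
        unfold same
        rw [mem_filter]
        exact ⟨mem_univ _, hadj.symm, h2⟩
    have hc1 : ((X.filter (fun x => G.Adj y x)).image f).card =
        (X.filter (fun x => G.Adj y x)).card := card_image_of_injective _ hinj
    have hc2 := hC.g1 (f y) (hfC y)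
    have hc3 := hXY y hy
    have heq : (X.filter (fun x => G.Adj y x)).image f = par F lam (f y) ∩ C :=
      eq_of_subset_of_card_le hsub2 (by rw [hc1]; omega)
    have hc4 : (par F lam (f y) ∩ C).card = d := by
      rw [← heq, hc1]
      rw [← heq, hc1] at hc2
      omega
    have h5 := hC.g2 (f y) (hfC y) hc4
    rw [← heq] at h5
    obtain ⟨x, hx, hx2⟩ := mem_image.mp h5
    rw [mem_filter] at hx
    apply (hnot' x hx.1).2
    rw [mem_filter]
    exact ⟨hfC y, hc4, hx2.symm⟩
  have h1 := card_le_card hsub
  rw [card_image_of_injective _ hinj] at h1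
  have h2 : (X.biUnion (fun x => nr (f x) ∪ own (f x))).card ≤
      X.card * (d * N + m * R + R * N / m + d) := by
    refine card_biUnion_le_card_mul _ _ _ fun x _ => ?_
    refine (card_union_le _ _).trans ?_
    have h3 := hnr (f x) (hfC x)
    have h4 := hown (f x) (hfC x)
    omega
  omega

/-- The main theorem on colourings. -/
theorem main_colour (F : SimpleGraph V) {N m r d : ℕ} (hN : 1 ≤ N) (hr : 1 ≤ r) (hd : 1 ≤ d)
    (hm0 : 1 ≤ m) (hm : (r * d + 1) * m ≤ N)
    (hE : ∀ s : Finset V, N * cnt F s + 2 * s.card ≤ 2 * (r * d * N) * s.card) :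
    ∃ c : V → Fin r, ∀ (W : Type) (G : SimpleGraph W) (X Y : Finset W),
      (∀ y ∈ Y, d ≤ (X.filter (fun x => G.Adj y x)).card) →
      X.card * (d * N + m * (r * d) + r * d * N / m + d) < Y.card →
      ¬ ∃ i : Fin r, ∃ f : W → V, Function.Injective f ∧
        (∀ a b, G.Adj a b → F.Adj (f a) (f b)) ∧ ∀ a, c (f a) = i := by
  obtain ⟨lam, o, hsame, ho, hG⟩ := exists_levels F (R := r * d)
    (Nat.succ_le_of_lt (Nat.mul_pos (Nat.mul_pos hr hd) hN)) hm hE
  have hP : ∀ u, ∀ w ∈ par F lam u, lam u < lam w := by
    intro u w hw
    unfold par at hw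
    rw [mem_filter] at hw
    exact hw.2.2
  obtain ⟨c, hc, hc2⟩ := colour hP ho d hr univ hG
  refine ⟨fun v => ⟨c v, hc v⟩, ?_⟩
  rintro W G X Y hXY hcard ⟨i, f, hinj, hf, hfi⟩
  refine no_copy F hm0 hsame (hc2 i i.2) G X Y hXY hcard f hinj hf fun a => ?_
  rw [mem_filter]
  exact ⟨mem_univ _, congrArg Fin.val (hfi a)⟩

end Pool.Agent.H55.SR
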