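import Pool.Agent.H55.SR.Uni

/-!
# Complete bipartite graphs
-/

namespace Pool.Agent.H55.SR

open Finset Filter Topology
open Pool.Agent.Results.MP_09f43a_co.MadPartition
open Pool.Agent.H68.CR

lemma E2_bip (d k : ℕ) (s : Finset (Fin d ⊕ Fin k)) :
    E2 (completeBipartiteGraph (Fin d) (Fin k)) s = 2 * s.toLeft.card * s.toRight.card := by
  classical
  unfold E2
  conv_lhs => rw [← toLeft_disjSum_toRight (u := s)]
  rw [sum_disjSum]
  simp only [sum_disjSum, completeBipartiteGraph_adj, Sum.isLeft_inl, Sum.isLeft_inr,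
    Sum.isRight_inl, Sum.isRight_inr]
  simp
  ring

lemma mad_bip (d k : ℕ) (hd : 1 ≤ d) (hdk : d ≤ k) :
    mad (completeBipartiteGraph (Fin d) (Fin k)) = 2 * d * k / (d + k) := by
  have hd0 : (1 : ℝ) ≤ d := by exact_mod_cast hd
  have hdk' : (d : ℝ) ≤ k := by exact_mod_cast hdk
  have hpos : (0 : ℝ) < d + k := by linarith
  apply le_antisymm
  · rw [mad_le_iff _ (by positivity)]
    intro s
    rw [E2_bip, div_mul_eq_mul_div, le_div_iff₀ hpos]
    have h1 : (s.toLeft.card : ℝ) ≤ d := by
      have := card_le_univ s.toLeft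
      rw [Fintype.card_fin] at this
      exact_mod_cast this
    have h2 : (s.toRight.card : ℝ) ≤ k := by
      have := card_le_univ s.toRight
      rw [Fintype.card_fin] at this
      exact_mod_cast this
    have h3 : (s.card : ℝ) = s.toLeft.card + s.toRight.card := by
      exact_mod_cast (card_toLeft_add_card_toRight (u := s)).symm
    rw [h3]
    have ha : (0 : ℝ) ≤ s.toLeft.card := by positivity
    have hb : (0 : ℝ) ≤ s.toRight.card := by positivity
    have h4 : (s.toLeft.card : ℝ) * s.toRight.card ≤ s.toLeft.card * k :=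
      mul_le_mul_of_nonneg_left h2 ha
    have h5 : (s.toLeft.card : ℝ) * s.toRight.card ≤ d * s.toRight.card :=
      mul_le_mul_of_nonneg_right h1 hb
    have h6 : ((s.toLeft.card : ℝ) * s.toRight.card) * d ≤ (s.toLeft.card * k) * d :=
      mul_le_mul_of_nonneg_right h4 (by linarith)
    have h7 : ((s.toLeft.card : ℝ) * s.toRight.card) * k ≤ (d * s.toRight.card) * k :=
      mul_le_mul_of_nonneg_right h5 (by linarith)
    linarith
  · have h := E2_le_mad (completeBipartiteGraph (Fin d) (Fin k)) univ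
    rw [E2_bip] at h
    have h1 : (univ : Finset (Fin d ⊕ Fin k)).toLeft.card = d := by
      have : (univ : Finset (Fin d ⊕ Fin k)).toLeft = univ := by
        ext x
        simp
      rw [this, card_univ, Fintype.card_fin]
    have h2 : (univ : Finset (Fin d ⊕ Fin k)).toRight.card = k := by
      have : (univ : Finset (Fin d ⊕ Fin k)).toRight = univ := by
        ext x
        simp
      rw [this, card_univ, Fintype.card_fin]
    rw [h1, h2, card_univ, Fintype.card_sum, Fintype.card_fin, Fintype.card_fin] at h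
    rw [div_le_iff₀ hpos]
    push_cast at h
    linarith

theorem limit (r d : ℕ) (hr : 1 ≤ r) (hd : 1 ≤ d) :
    Tendsto (fun k : ℕ => (k : ℝ) *
      (2 * r * d - mcr (completeBipartiteGraph (Fin d) (Fin k)) r)) atTop (𝓝 (2 * (d : ℝ) ^ 2)) := by
  obtain ⟨C, hC, hU⟩ := uniform r d hr hd
  have hd0 : (1 : ℝ) ≤ d := by exact_mod_cast hd
  have hth : ∀ k : ℕ, d ≤ k → 2 * (d : ℝ) - mad (completeBipartiteGraph (Fin d) (Fin k)) =
      2 * d ^ 2 / (d + k) := by
    intro k hk
    rw [mad_bip d k hd hk]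
    have : (0 : ℝ) < d + k := by positivity
    field_simp
    ring
  have hB : ∀ k : ℕ, _ := fun k => hU (Fin d ⊕ Fin k) (completeBipartiteGraph (Fin d) (Fin k))
    {x | x.isRight = true} (by
      rintro (a | a) (b | b) <;> simp) (by
      rintro (a | a) ha
      · simp at ha
      · have h1 : (completeBipartiteGraph (Fin d) (Fin k)).neighborSet (Sum.inr a) =
            Set.range Sum.inl := by
          ext x
          rcases x with x | x <;> simp
        rw [h1, ← Set.image_univ, Set.ncard_image_of_injective _ Sum.inl_injective,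
          Set.ncard_univ, Nat.card_fin])
  -- the two bounds
  have hl1 : Tendsto (fun k : ℕ => (k : ℝ) * (2 * (d : ℝ) ^ 2 / (d + k))) atTop
      (𝓝 (2 * (d : ℝ) ^ 2)) := by
    have h1 : Tendsto (fun k : ℕ => (k : ℝ) / (k + d)) atTop (𝓝 1) := by
      exact tendsto_natCast_div_add_atTop (d : ℝ)
    have h2 := h1.const_mul (2 * (d : ℝ) ^ 2)
    rw [mul_one] at h2
    refine h2.congr fun k => ?_
    rw [add_comm (k : ℝ)]
    ring
  have hl0 : Tendsto (fun k : ℕ => 2 * (d : ℝ) ^ 2 / (d + k)) atTop (𝓝 0) := by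
    refine Tendsto.div_atTop tendsto_const_nhds ?_
    exact tendsto_atTop_add_const_left _ _ tendsto_natCast_atTop_atTop
  have hl2 : Tendsto (fun k : ℕ => (k : ℝ) * (2 * (d : ℝ) ^ 2 / (d + k)) +
      C * (((k : ℝ) * (2 * (d : ℝ) ^ 2 / (d + k))) * Real.sqrt (2 * (d : ℝ) ^ 2 / (d + k)))) atTop
      (𝓝 (2 * (d : ℝ) ^ 2)) := by
    have h1 : Tendsto (fun k : ℕ => Real.sqrt (2 * (d : ℝ) ^ 2 / (d + k))) atTop (𝓝 0) := by
      have := (Real.continuous_sqrt.tendsto 0).comp hl0
      rw [Real.sqrt_zero] at this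
      exact this
    have h2 := hl1.add ((hl1.mul h1).const_mul C)
    rw [mul_zero, mul_zero, add_zero] at h2
    exact h2
  refine tendsto_of_tendsto_of_tendsto_of_le_of_le' hl1 hl2 ?_ ?_
  · filter_upwards [eventually_ge_atTop d] with k hk
    have h1 := (hB k).2.2
    have h2 := hth k hk
    refine mul_le_mul_of_nonneg_left ?_ (by positivity)
    linarith
  · filter_upwards [eventually_ge_atTop d] with k hk
    have h1 := (hB k).2.1
    have h2 := hth k hk
    rw [h2] at h1
    have hk0 : (0 : ℝ) ≤ k := by positivity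
    have h3 : 2 * (r : ℝ) * d - mcr (completeBipartiteGraph (Fin d) (Fin k)) r ≤
        2 * (d : ℝ) ^ 2 / (d + k) +
        C * (2 * (d : ℝ) ^ 2 / (d + k) * Real.sqrt (2 * (d : ℝ) ^ 2 / (d + k))) := by
      linarith
    refine (mul_le_mul_of_nonneg_left h3 hk0).trans (le_of_eq ?_)
    ring

end Pool.Agent.H55.SR
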