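import Mathlib

/-!
# A fixed point lemma for level-wise monotone rules
-/

namespace Pool.Agent.H55.SR

/-- A rule `Rule v A` which depends only on the members of `A` of level at least `lam v`, and
which is monotone in the members of level exactly `lam v`, has a fixed point. -/
theorem level_fix {V : Type*} (lam : V → ℕ) (Rule : V → Set V → Prop) (M : ℕ)
    (hM : ∀ v, lam v < M)
    (h1 : ∀ v A A', (∀ w, lam v ≤ lam w → (w ∈ A ↔ w ∈ A')) → Rule v A → Rule v A')
    (h2 : ∀ v A A', A ⊆ A' → (∀ w, lam v < lam w → (w ∈ A ↔ w ∈ A')) → Rule v A → Rule v A') :
    ∃ A : Set V, ∀ v, v ∈ A ↔ Rule v A := by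
  have key : ∀ j : ℕ, ∃ A : Set V, ∀ v, M ≤ lam v + j → (v ∈ A ↔ Rule v A) := by
    intro j
    induction j with
    | zero => exact ⟨∅, fun v hv => absurd (hM v) (by omega)⟩
    | succ j ih =>
      obtain ⟨A, hA⟩ := ih
      let A0 : Set V := {w | w ∈ A ∧ M ≤ lam w + j}
      let T : Set V →o Set V :=
        { toFun := fun X => {v | lam v + j + 1 = M ∧ Rule v (A0 ∪ {w | w ∈ X ∧ lam w + j + 1 = M})}
          monotone' := by
            intro X Y hXY v hv
            refine ⟨hv.1, h2 v _ _ ?_ ?_ hv.2⟩
            · rintro w (hw | hw)
              · exact Or.inl hw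
              · exact Or.inr ⟨hXY hw.1, hw.2⟩
            · intro w hw
              have hv1 := hv.1
              constructor
              · rintro (h | h)
                · exact Or.inl h
                · have := h.2
                  omega
              · rintro (h | h)
                · exact Or.inl h
                · have := h.2
                  omega }
      let X : Set V := OrderHom.lfp T
      have hX : T X = X := OrderHom.map_lfp T
      let A' : Set V := A0 ∪ {w | w ∈ X ∧ lam w + j + 1 = M}
      refine ⟨A', fun v hv => ?_⟩
      by_cases hvj : lam v + j + 1 = M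
      · have hA0 : v ∉ A0 := fun h => by
          have := h.2
          omega
        have hXv : v ∈ X ↔ Rule v A' := by
          rw [← hX]
          exact ⟨fun h => h.2, fun h => ⟨hvj, h⟩⟩
        rw [← hXv]
        constructor
        · rintro (h | h)
          · exact absurd h hA0
          · exact h.1
        · intro h
          exact Or.inr ⟨h, hvj⟩
      · have hv' : M ≤ lam v + j := by omega
        have hmem : ∀ w, lam v ≤ lam w → (w ∈ A ↔ w ∈ A') := by
          intro w hw
          constructor
          · intro h
            exact Or.inl ⟨h, by omega⟩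
          · rintro (h | h)
            · exact h.1
            · have := h.2
              omega
        rw [← hmem v le_rfl, hA v hv']
        exact ⟨h1 v _ _ hmem, h1 v _ _ fun w hw => (hmem w hw).symm⟩
  obtain ⟨A, hA⟩ := key M
  exact ⟨A, fun v => hA v (by omega)⟩

end Pool.Agent.H55.SR
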