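import Pool.Agent.H55.SR.Col
import Pool.Agent.H68.CRc

/-!
# The explicit lower bound for `m_cr`
-/

namespace Pool.Agent.H55.SR

open Finset
open Pool.Agent.Results.MP_09f43a_co.MadPartition

open scoped Classical in
lemma E2_eq_cnt {V : Type*} [Fintype V] (F : SimpleGraph V) (s : Finset V) :
    E2 F s = (cnt F s : ℝ) := by
  unfold E2 cnt
  push_cast
  refine sum_congr rfl fun u _ => sum_congr rfl fun v _ => ?_
  split_ifs <;> rfl

open scoped Classical in
/-- **Explicit lower bound.** -/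
theorem mcr_lower_XY {W : Type} [Finite W] (G : SimpleGraph W) (X Y : Finset W)
    {r d N m : ℕ} (hr : 1 ≤ r) (hd : 1 ≤ d) (hm0 : 1 ≤ m) (hm : (r * d + 1) * m ≤ N)
    (hXY : ∀ y ∈ Y, d ≤ (X.filter (fun x => G.Adj y x)).card)
    (hcard : X.card * (d * N + m * (r * d) + r * d * N / m + d) < Y.card) :
    2 * r * d - 2 / N ≤ mcr G r := by
  have hN : 1 ≤ N := by
    have h1 : 1 ≤ (r * d + 1) * m := Nat.succ_le_of_lt (Nat.mul_pos (Nat.succ_pos _) hm0)
    omega
  have hN0 : (0 : ℝ) < N := by exact_mod_cast hN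
  unfold mcr
  refine le_csInf (mcr_nonempty G hr) ?_
  rintro x ⟨n, F, hA, rfl⟩
  by_contra hcon
  rw [not_le] at hcon
  have hE : ∀ s : Finset (Fin n), N * cnt F s + 2 * s.card ≤ 2 * (r * d * N) * s.card := by
    intro s
    have h1 := E2_le_mad F s
    rw [E2_eq_cnt] at h1
    have hs0 : (0 : ℝ) ≤ s.card := by positivity
    have h2 : (cnt F s : ℝ) ≤ (2 * r * d - 2 / N) * s.card :=
      h1.trans (mul_le_mul_of_nonneg_right hcon.le hs0)
    have h3 : (N : ℝ) * cnt F s ≤ N * ((2 * r * d - 2 / N) * s.card) :=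
      mul_le_mul_of_nonneg_left h2 hN0.le
    have h4 : (N : ℝ) * ((2 * r * d - 2 / N) * s.card) =
        2 * (r * d * N) * s.card - 2 * s.card := by
      field_simp
    have h5 : ((N * cnt F s + 2 * s.card : ℕ) : ℝ) ≤ ((2 * (r * d * N) * s.card : ℕ) : ℝ) := by
      push_cast
      linarith
    exact_mod_cast h5
  obtain ⟨c, hc⟩ := main_colour F hN hr hd hm0 hm hE
  obtain ⟨i, f, hinj, hf, hfi⟩ := hA c
  exact hc W G X Y hXY hcard ⟨i, f, hinj, hf, hfi⟩

end Pool.Agent.H55.SR
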