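import Pool.Agent.H55.SR.Split
import Pool.Agent.H28.MD.Core

/-!
# Levels and owners

For a graph with `N e(H) ≤ (R N - 1) |H|` for all `H` we choose levels `lam` minimising
`2 B ∑ lam v + m #(adjacent pairs of equal level) - N ∑ min (lam u) (lam v)` (sums over ordered
adjacent pairs), `B = R N - 1`.  The minimality for the functions `lam + 1_S` gives everything.
-/

namespace Pool.Agent.H55.SR

open Finset
open scoped Classical

variable {V : Type*} [Fintype V]

/-- The number of ordered adjacent pairs in `s`. -/
noncomputable def cnt (F : SimpleGraph V) (s : Finset V) : ℕ :=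
  ∑ u ∈ s, ∑ v ∈ s, if F.Adj u v then 1 else 0

/-- The contribution of the pair `(a, b)` of levels, the first one of a vertex of `S`, `q` tells
whether the second vertex is in `S`. -/
noncomputable def gw (N m : ℤ) (a b : ℕ) (q : Prop) : ℤ :=
  if a < b then (if q ∨ a + 2 ≤ b then N else N - m) else if a = b ∧ ¬ q then m else 0

lemma gw_le {N m : ℤ} (hm : 0 ≤ m) (hmN : m ≤ N) (a b : ℕ) (p q : Prop) [Decidable p]
    [Decidable q] :
    (if p then gw N m a b q else 0) + (if q then gw N m b a p else 0) ≤
      N * (((min (a + if p then 1 else 0) (b + if q then 1 else 0) : ℕ) : ℤ) - (min a b : ℕ)) +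
      m * ((if a = b then 1 else 0) -
        (if (a + if p then 1 else 0) = (b + if q then 1 else 0) then 1 else 0)) := by
  unfold gw
  by_cases hp : p <;> by_cases hq : q
  · simp only [hp, hq, if_true, not_true, and_false, if_false, true_or]
    rcases lt_trichotomy a b with h | h | h
    · have h1 : min (a + 1) (b + 1) = a + 1 := min_eq_left (by omega)
      have h2 : min a b = a := min_eq_left h.le
      rw [h1, h2, if_pos h, if_neg (by omega : ¬ b < a), if_neg (by omega : ¬ a = b),
        if_neg (by omega : ¬ a + 1 = b + 1)]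
      push_cast
      linarith
    · subst h
      simp
      linarith
    · have h1 : min (a + 1) (b + 1) = b + 1 := min_eq_right (by omega)
      have h2 : min a b = b := min_eq_right h.le
      rw [h1, h2, if_pos h, if_neg (by omega : ¬ a < b), if_neg (by omega : ¬ a = b),
        if_neg (by omega : ¬ a + 1 = b + 1)]
      push_cast
      linarith
  · simp only [hp, hq, if_true, if_false, not_false_iff, and_true, false_or, add_zero]
    rcases lt_trichotomy a b with h | h | h
    · have h1 : min (a + 1) b = a + 1 := min_eq_left (by omega)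
      have h2 : min a b = a := min_eq_left h.le
      rw [h1, h2, if_pos h, if_neg (by omega : ¬ a = b)]
      by_cases h3 : a + 2 ≤ b
      · rw [if_pos h3, if_neg (by omega : ¬ a + 1 = b)]
        push_cast
        linarith
      · rw [if_neg h3, if_pos (by omega : a + 1 = b)]
        push_cast
        linarith
    · subst h
      simp
    · have h1 : min (a + 1) b = b := min_eq_right (by omega)
      have h2 : min a b = b := min_eq_right h.le
      have h3 : ¬ a = b := by omega
      rw [h1, h2, if_neg (by omega : ¬ a < b), if_neg (by omega : ¬ a + 1 = b)]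
      simp [h3]
  · simp only [hp, hq, if_true, if_false, not_false_iff, and_true, false_or, add_zero, zero_add]
    rcases lt_trichotomy a b with h | h | h
    · have h1 : min a (b + 1) = a := min_eq_left (by omega)
      have h2 : min a b = a := min_eq_left h.le
      rw [h1, h2, if_neg (by omega : ¬ b < a), if_neg (by omega : ¬ a = b),
        if_neg (by omega : ¬ b = a), if_neg (by omega : ¬ a = b + 1)]
      simp
    · subst h
      simp
    · have h1 : min a (b + 1) = b + 1 := min_eq_right (by omega)
      have h2 : min a b = b := min_eq_right h.le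
      rw [h1, h2, if_pos h, if_neg (by omega : ¬ a = b)]
      by_cases h3 : b + 2 ≤ a
      · rw [if_pos h3, if_neg (by omega : ¬ a = b + 1)]
        push_cast
        linarith
      · rw [if_neg h3, if_pos (by omega : a = b + 1)]
        push_cast
        linarith
  · simp [hp, hq]

/-- The functional. -/
noncomputable def DD (F : SimpleGraph V) (N B m : ℤ) (lam : V → ℕ) : ℤ :=
  2 * B * ∑ v, (lam v : ℤ) +
    ∑ u, ∑ v, (if F.Adj u v then m * (if lam u = lam v then 1 else 0) -
      N * ((min (lam u) (lam v) : ℕ) : ℤ) else 0)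

lemma DD_nonneg (F : SimpleGraph V) {N B m : ℕ}
    (hE : ∀ s : Finset V, N * cnt F s ≤ 2 * B * s.card) (lam : V → ℕ) :
    0 ≤ DD F N B m lam := by
  have h := Pool.Agent.H28.MD.layer (fun u v => if F.Adj u v then (N : ℝ) else 0) (B : ℝ) (by
    intro s
    have := hE s
    have h2 : ((N * cnt F s : ℕ) : ℝ) ≤ ((2 * B * s.card : ℕ) : ℝ) := by exact_mod_cast this
    unfold cnt at h2
    push_cast at h2
    rw [mul_sum] at h2
    refine le_trans (le_of_eq ?_) h2
    refine sum_congr rfl fun u _ => ?_
    rw [mul_sum]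
    refine sum_congr rfl fun v _ => ?_
    split_ifs <;> simp) _ (fun v => (lam v : ℝ)) (fun v => by positivity) rfl
  have h1 : (∑ u, ∑ v, (if F.Adj u v then (N : ℤ) * ((min (lam u) (lam v) : ℕ) : ℤ) else 0)) ≤
      2 * B * ∑ v, (lam v : ℤ) := by
    have h2 : (((∑ u, ∑ v, (if F.Adj u v then (N : ℤ) * ((min (lam u) (lam v) : ℕ) : ℤ) else 0)) :
        ℤ) : ℝ) ≤ ((2 * B * ∑ v, (lam v : ℤ) : ℤ) : ℝ) := by
      push_cast
      refine le_trans (le_of_eq ?_) h
      refine sum_congr rfl fun u _ => sum_congr rfl fun v _ => ?_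
      split_ifs <;> simp
    exact_mod_cast h2
  have h3 : DD F N B m lam = (2 * B * ∑ v, (lam v : ℤ) -
      ∑ u, ∑ v, (if F.Adj u v then (N : ℤ) * ((min (lam u) (lam v) : ℕ) : ℤ) else 0)) +
      ∑ u, ∑ v, (if F.Adj u v then (m : ℤ) * (if lam u = lam v then 1 else 0) else 0) := by
    unfold DD
    rw [sub_add, ← sum_sub_distrib, sub_eq_add_neg, ← sum_neg_distrib]
    congr 1
    refine sum_congr rfl fun u _ => ?_
    rw [← sum_sub_distrib, ← sum_neg_distrib]
    refine sum_congr rfl fun v _ => ?_
    split_ifs <;> ring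
  rw [h3]
  have h4 : (0 : ℤ) ≤ ∑ u, ∑ v, (if F.Adj u v then (m : ℤ) * (if lam u = lam v then 1 else 0)
      else 0) := by
    refine sum_nonneg fun u _ => sum_nonneg fun v _ => ?_
    split_ifs <;> simp
  linarith

/-- The key inequality from minimality. -/
lemma key_ineq (F : SimpleGraph V) {N B m : ℤ} (hm : 0 ≤ m) (hmN : m ≤ N) {lam : V → ℕ}
    (hmin : ∀ mu : V → ℕ, DD F N B m lam ≤ DD F N B m mu) (S : Finset V) :
    ∑ u ∈ S, ∑ v, (if F.Adj u v then gw N m (lam u) (lam v) (v ∈ S) else 0) ≤ B * S.card := by
  have h := hmin (fun v => lam v + if v ∈ S then 1 else 0)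
  unfold DD at h
  have e1 : ∑ v, ((lam v + if v ∈ S then 1 else 0 : ℕ) : ℤ) = ∑ v, (lam v : ℤ) + S.card := by
    push_cast
    rw [sum_add_distrib]
    congr 1
    rw [sum_boole, filter_mem_eq_inter, univ_inter]
  rw [e1] at h
  have h2 : ∑ u, ∑ v, (if F.Adj u v then
      (if u ∈ S then gw N m (lam u) (lam v) (v ∈ S) else 0) +
      (if v ∈ S then gw N m (lam v) (lam u) (u ∈ S) else 0) else 0) ≤
      ∑ u, ∑ v, ((if F.Adj u v then m * (if lam u = lam v then 1 else 0) -
        N * ((min (lam u) (lam v) : ℕ) : ℤ) else 0) -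
        (if F.Adj u v then m * (if (lam u + if u ∈ S then 1 else 0) =
          (lam v + if v ∈ S then 1 else 0) then 1 else 0) -
        N * ((min (lam u + if u ∈ S then 1 else 0) (lam v + if v ∈ S then 1 else 0) : ℕ) : ℤ)
        else 0)) := by
    refine sum_le_sum fun u _ => sum_le_sum fun v _ => ?_
    by_cases ha : F.Adj u v
    · rw [if_pos ha, if_pos ha, if_pos ha]
      refine (gw_le hm hmN (lam u) (lam v) (u ∈ S) (v ∈ S)).trans (le_of_eq ?_)
      ring
    · rw [if_neg ha, if_neg ha, if_neg ha]
      simp
  have e2 : ∑ u, ∑ v, (if F.Adj u v then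
      (if u ∈ S then gw N m (lam u) (lam v) (v ∈ S) else 0) +
      (if v ∈ S then gw N m (lam v) (lam u) (u ∈ S) else 0) else 0) =
      2 * ∑ u ∈ S, ∑ v, (if F.Adj u v then gw N m (lam u) (lam v) (v ∈ S) else 0) := by
    have e3 : ∑ u, ∑ v, (if F.Adj u v then
        (if u ∈ S then gw N m (lam u) (lam v) (v ∈ S) else 0) else 0) =
        ∑ u ∈ S, ∑ v, (if F.Adj u v then gw N m (lam u) (lam v) (v ∈ S) else 0) := by
      rw [← sum_filter_add_sum_filter_not univ (fun u => u ∈ S)]
      rw [sum_eq_zero (s := univ.filter (fun u => u ∉ S)), add_zero, filter_mem_eq_inter,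
        univ_inter]
      · refine sum_congr rfl fun u hu => sum_congr rfl fun v _ => ?_
        rw [if_pos hu]
      · intro u hu
        refine sum_eq_zero fun v _ => ?_
        rw [if_neg (mem_filter.mp hu).2]
        simp
    have e4 : ∑ u, ∑ v, (if F.Adj u v then
        (if v ∈ S then gw N m (lam v) (lam u) (u ∈ S) else 0) else 0) =
        ∑ u, ∑ v, (if F.Adj u v then
        (if u ∈ S then gw N m (lam u) (lam v) (v ∈ S) else 0) else 0) := by
      rw [sum_comm]
      refine sum_congr rfl fun u _ => sum_congr rfl fun v _ => ?_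
      simp only [F.adj_comm]
    rw [two_mul, ← e3]
    nth_rewrite 2 [← e4]
    rw [← sum_add_distrib]
    refine sum_congr rfl fun u _ => ?_
    rw [← sum_add_distrib]
    refine sum_congr rfl fun v _ => ?_
    split_ifs <;> simp
  rw [e2] at h2
  simp only [sum_sub_distrib] at h2
  linarith

end Pool.Agent.H55.SR
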