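import Pool.Agent.H55.SR.Min

/-!
# Existence of levels and owners
-/

namespace Pool.Agent.H55.SR

open Finset
open scoped Classical

variable {V : Type*} [Fintype V]

/-- The parents of `u`: the neighbours of higher level. -/
noncomputable def par (F : SimpleGraph V) (lam : V → ℕ) (u : V) : Finset V :=
  univ.filter (fun v => F.Adj u v ∧ lam u < lam v)

/-- The neighbours of level one higher. -/
noncomputable def par1 (F : SimpleGraph V) (lam : V → ℕ) (u : V) : Finset V :=
  univ.filter (fun v => F.Adj u v ∧ lam v = lam u + 1)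

/-- The neighbours of the same level. -/
noncomputable def same (F : SimpleGraph V) (lam : V → ℕ) (u : V) : Finset V :=
  univ.filter (fun v => F.Adj u v ∧ lam u = lam v)

lemma sum_ite_card (N : ℤ) (p : V → Prop) [DecidablePred p] :
    ∑ v, (if p v then N else 0) = N * (univ.filter p).card := by
  rw [← sum_filter, sum_const, nsmul_eq_mul, mul_comm]

lemma single_ineq (F : SimpleGraph V) {N B m : ℤ} (hm : 0 ≤ m) (hmN : m ≤ N) {lam : V → ℕ}
    (hmin : ∀ mu : V → ℕ, DD F N B m lam ≤ DD F N B m mu) (u : V) :
    (N - m) * (par F lam u).card + m * (same F lam u).card ≤ B := by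
  have h := key_ineq F hm hmN hmin {u}
  rw [sum_singleton, card_singleton, Nat.cast_one, mul_one] at h
  refine le_trans ?_ h
  unfold par same
  rw [← sum_ite_card, ← sum_ite_card, ← sum_add_distrib]
  refine sum_le_sum fun v _ => ?_
  by_cases ha : F.Adj u v
  · have hne : v ∉ ({u} : Finset V) := by
      rw [mem_singleton]
      exact ha.ne'
    unfold gw
    rw [if_pos ha]
    rcases lt_trichotomy (lam u) (lam v) with h1 | h1 | h1
    · rw [if_pos ⟨ha, h1⟩, if_neg (by rintro ⟨-, h2⟩; omega), if_pos h1]
      split_ifs <;> linarith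
    · rw [if_neg (by rintro ⟨-, h2⟩; omega), if_pos ⟨ha, h1⟩, if_neg (by omega),
        if_pos ⟨h1, hne⟩]
      linarith
    · rw [if_neg (by rintro ⟨-, h2⟩; omega), if_neg (by rintro ⟨-, h2⟩; omega),
        if_neg (by omega), if_neg (by rintro ⟨h2, -⟩; omega)]
      simp
  · rw [if_neg (fun h => ha h.1), if_neg (fun h => ha h.1), if_neg ha]
    simp

lemma hall_ineq (F : SimpleGraph V) {N B m R : ℤ} (hm : 0 ≤ m) (hmN : m ≤ N) {lam : V → ℕ}
    (hmin : ∀ mu : V → ℕ, DD F N B m lam ≤ DD F N B m mu) (hB : B + 1 ≤ R * N)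
    (X : Finset V) (hX : ∀ u ∈ X, ((par F lam u).card : ℤ) = R) :
    (X.card : ℤ) ≤ ∑ v ∈ X.biUnion (par1 F lam), (B - (N - m) * (par F lam v).card) := by
  set Y := X.biUnion (par1 F lam) with hY
  have h := key_ineq F hm hmN hmin (X ∪ (Y \ X))
  have hd : Disjoint X (Y \ X) := disjoint_sdiff
  rw [sum_union hd, card_union_of_disjoint hd] at h
  have h1 : R * N * X.card ≤ ∑ u ∈ X, ∑ v, (if F.Adj u v then
      gw N m (lam u) (lam v) (v ∈ X ∪ (Y \ X)) else 0) := by
    have : ∀ u ∈ X, R * N ≤ ∑ v, (if F.Adj u v then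
        gw N m (lam u) (lam v) (v ∈ X ∪ (Y \ X)) else 0) := by
      intro u hu
      rw [← hX u hu, mul_comm]
      unfold par
      rw [← sum_ite_card]
      refine sum_le_sum fun v _ => ?_
      by_cases ha : F.Adj u v
      · unfold gw
        rw [if_pos ha]
        by_cases h1 : lam u < lam v
        · rw [if_pos ⟨ha, h1⟩, if_pos h1]
          by_cases h2 : lam u + 2 ≤ lam v
          · rw [if_pos (Or.inr h2)]
          · rw [if_pos (Or.inl ?_)]
            have h3 : v ∈ Y := by
              rw [hY, mem_biUnion]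
              refine ⟨u, hu, ?_⟩
              unfold par1
              rw [mem_filter]
              exact ⟨mem_univ _, ha, by omega⟩
            rw [mem_union, mem_sdiff]
            by_cases h4 : v ∈ X
            · exact Or.inl h4
            · exact Or.inr ⟨h3, h4⟩
        · rw [if_neg (fun h => h1 h.2), if_neg h1]
          split_ifs <;> linarith
      · rw [if_neg (fun h => ha h.1), if_neg ha]
    calc R * N * X.card = ∑ u ∈ X, R * N := by rw [sum_const, nsmul_eq_mul, mul_comm]
      _ ≤ _ := sum_le_sum this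
  have h2 : ∑ u ∈ Y \ X, (N - m) * ((par F lam u).card : ℤ) ≤ ∑ u ∈ Y \ X, ∑ v, (if F.Adj u v then
      gw N m (lam u) (lam v) (v ∈ X ∪ (Y \ X)) else 0) := by
    refine sum_le_sum fun u _ => ?_
    unfold par
    rw [← sum_ite_card]
    refine sum_le_sum fun v _ => ?_
    by_cases ha : F.Adj u v
    · unfold gw
      rw [if_pos ha]
      by_cases h1 : lam u < lam v
      · rw [if_pos ⟨ha, h1⟩, if_pos h1]
        split_ifs <;> linarith
      · rw [if_neg (fun h => h1 h.2), if_neg h1]
        split_ifs <;> linarith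
    · rw [if_neg (fun h => ha h.1), if_neg ha]
  have h3 : ∀ v, 0 ≤ B - (N - m) * ((par F lam v).card : ℤ) := by
    intro v
    have := single_ineq F hm hmN hmin v
    have h4 : 0 ≤ m * ((same F lam v).card : ℤ) := by positivity
    linarith
  have h4 : ∑ v ∈ Y \ X, (B - (N - m) * ((par F lam v).card : ℤ)) ≤
      ∑ v ∈ Y, (B - (N - m) * ((par F lam v).card : ℤ)) :=
    sum_le_sum_of_subset_of_nonneg sdiff_subset fun v _ _ => h3 v
  refine le_trans ?_ h4
  rw [sum_sub_distrib, sum_const, nsmul_eq_mul]
  push_cast at h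
  have h5 : (B + 1) * X.card ≤ R * N * X.card := by
    refine mul_le_mul_of_nonneg_right hB ?_
    positivity
  nlinarith

/-- Levels and owners. -/
theorem exists_levels (F : SimpleGraph V) {N m R : ℕ} (hRN : 1 ≤ R * N)
    (hm : (R + 1) * m ≤ N)
    (hE : ∀ s : Finset V, N * cnt F s + 2 * s.card ≤ 2 * (R * N) * s.card) :
    ∃ (lam : V → ℕ) (o : V → V), (∀ u, m * (same F lam u).card ≤ R * N) ∧
      (∀ u, o u ∈ par F lam u → lam (o u) = lam u + 1) ∧
      Good (par F lam) o N (m * R) univ R := by
  obtain ⟨B, hB⟩ : ∃ B, R * N = B + 1 := ⟨R * N - 1, by omega⟩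
  have hE' : ∀ s : Finset V, N * cnt F s ≤ 2 * B * s.card := by
    intro s
    have := hE s
    rw [hB] at this
    nlinarith
  have hmN : m ≤ N := by nlinarith
  obtain ⟨lam, hlam⟩ : ∃ lam : V → ℕ, ∀ mu : V → ℕ, DD F N B m lam ≤ DD F N B m mu := by
    refine ⟨Function.argmin (fun lam : V → ℕ => (DD F N B m lam).toNat), fun mu => ?_⟩
    have h := Function.argmin_le (fun lam : V → ℕ => (DD F N B m lam).toNat) mu
    have h1 := DD_nonneg F (m := m) hE' mu
    have h2 := DD_nonneg F (m := m) hE'
      (Function.argmin (fun lam : V → ℕ => (DD F N B m lam).toNat))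
    omega
  have hmZ : (0 : ℤ) ≤ m := Int.natCast_nonneg m
  have hmNZ : (m : ℤ) ≤ N := by exact_mod_cast hmN
  have hs : ∀ u, ((N : ℤ) - m) * (par F lam u).card + m * (same F lam u).card ≤ B :=
    fun u => single_ineq F hmZ hmNZ hlam u
  have hcapZ : ∀ u, ((N : ℤ) - m) * (par F lam u).card ≤ B := by
    intro u
    have := hs u
    have h4 : (0 : ℤ) ≤ m * ((same F lam u).card : ℤ) := by positivity
    linarith
  have hsame : ∀ u, m * (same F lam u).card ≤ R * N := by
    intro u
    have h1 := hs u
    have h2 : (0 : ℤ) ≤ ((N : ℤ) - m) * (par F lam u).card :=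
      mul_nonneg (by linarith) (by positivity)
    have h3 : ((m * (same F lam u).card : ℕ) : ℤ) ≤ ((B : ℕ) : ℤ) := by
      push_cast
      linarith
    have h4 : m * (same F lam u).card ≤ B := by exact_mod_cast h3
    omega
  have hpR : ∀ u, (par F lam u).card ≤ R := by
    intro u
    by_contra hcon
    rw [not_le] at hcon
    have h1 := hcapZ u
    have h2 : ((R : ℤ) + 1) ≤ (par F lam u).card := by exact_mod_cast hcon
    have h3 : ((N : ℤ) - m) * (R + 1) ≤ ((N : ℤ) - m) * (par F lam u).card :=
      mul_le_mul_of_nonneg_left h2 (by linarith)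
    have h4 : ((R : ℤ) + 1) * m ≤ N := by exact_mod_cast hm
    have h5 : (R : ℤ) * N = B + 1 := by exact_mod_cast hB
    nlinarith
  -- the capacities
  let cap : V → ℕ := fun v => B - (N - m) * (par F lam v).card
  have hcap : ∀ v, (cap v : ℤ) = B - (N - m) * (par F lam v).card := by
    intro v
    have h1 := hcapZ v
    have h2 : (N - m) * (par F lam v).card ≤ B := by
      have h3 : (((N - m) * (par F lam v).card : ℕ) : ℤ) ≤ ((B : ℕ) : ℤ) := by
        push_cast [Nat.cast_sub hmN]
        exact h1
      exact_mod_cast h3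
    show (((B - (N - m) * (par F lam v).card) : ℕ) : ℤ) = _
    push_cast [Nat.cast_sub h2, Nat.cast_sub hmN]
    rfl
  -- Hall's theorem
  let t : {u : V // (par F lam u).card = R} → Finset (Σ _ : V, ℕ) := fun u =>
    (par1 F lam u).sigma (fun v => range (cap v))
  have hall : ∀ s : Finset {u : V // (par F lam u).card = R}, s.card ≤ (s.biUnion t).card := by
    intro s
    let X : Finset V := s.map (Function.Embedding.subtype _)
    have hX : ∀ u ∈ X, ((par F lam u).card : ℤ) = (R : ℤ) := by
      intro u hu
      obtain ⟨⟨w, hw⟩, -, rfl⟩ := mem_map.mp hu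
      exact_mod_cast hw
    have h1 := hall_ineq F hmZ hmNZ hlam (R := R) (by
      have : (R : ℤ) * N = B + 1 := by exact_mod_cast hB
      linarith) X hX
    have h2 : s.biUnion t = (X.biUnion (par1 F lam)).sigma (fun v => range (cap v)) := by
      ext ⟨v, i⟩
      simp only [mem_biUnion, mem_sigma, t, X, mem_map, Function.Embedding.coe_subtype]
      constructor
      · rintro ⟨u, hu, h3, h4⟩
        exact ⟨⟨u, ⟨u, hu, rfl⟩, h3⟩, h4⟩
      · rintro ⟨⟨u, ⟨w, hw, rfl⟩, h3⟩, h4⟩
        exact ⟨w, hw, h3, h4⟩
    rw [h2, card_sigma]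
    have h3 : X.card = s.card := card_map _
    rw [← h3]
    have h4 : (X.card : ℤ) ≤ ((∑ a ∈ X.biUnion (par1 F lam), (range (cap a)).card : ℕ) : ℤ) := by
      refine h1.trans (le_of_eq ?_)
      push_cast
      refine sum_congr rfl fun v _ => ?_
      rw [card_range, hcap]
    exact_mod_cast h4
  obtain ⟨f, hf, hft⟩ := (all_card_le_biUnion_card_iff_exists_injective t).mp hall
  let o : V → V := fun u => if h : (par F lam u).card = R then (f ⟨u, h⟩).1 else u
  have ho : ∀ u, (h : (par F lam u).card = R) → o u ∈ par1 F lam u := by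
    intro u h
    have h1 := hft ⟨u, h⟩
    rw [mem_sigma] at h1
    show (if h : (par F lam u).card = R then (f ⟨u, h⟩).1 else u) ∈ _
    rw [dif_pos h]
    exact h1.1
  have h1par : ∀ u v, v ∈ par1 F lam u → v ∈ par F lam u := by
    intro u v hv
    unfold par1 at hv
    unfold par
    rw [mem_filter] at hv ⊢
    exact ⟨hv.1, hv.2.1, by omega⟩
  refine ⟨lam, o, hsame, ?_, ?_⟩
  · intro u hu
    by_cases h : (par F lam u).card = R
    · have h1 := ho u h
      unfold par1 at h1
      rw [mem_filter] at h1
      exact h1.2.2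
    · exfalso
      have h1 : o u = u := by
        show (if h : (par F lam u).card = R then (f ⟨u, h⟩).1 else u) = u
        rw [dif_neg h]
      rw [h1] at hu
      unfold par at hu
      rw [mem_filter] at hu
      exact lt_irrefl _ hu.2.2
  · refine ⟨fun u _ => ?_, fun u _ hu => ?_, fun v _ => ?_⟩
    · rw [inter_univ]
      exact hpR u
    · rw [inter_univ] at hu ⊢
      exact h1par u _ (ho u hu)
    · rw [inter_univ]
      have hcard : (univ.filter (fun u => (par F lam u ∩ univ).card = R ∧ o u = v)).card ≤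
          cap v := by
        rw [← card_range (cap v)]
        refine card_le_card_of_injOn (fun u => if h : (par F lam u).card = R then
          (f ⟨u, h⟩).2 else 0) ?_ ?_
        · intro u hu
          rw [mem_coe, mem_filter, inter_univ] at hu
          obtain ⟨-, h, h2⟩ := hu
          have h3 := hft ⟨u, h⟩
          rw [mem_sigma] at h3
          have h4 : o u = (f ⟨u, h⟩).1 := by
            show (if h : (par F lam u).card = R then (f ⟨u, h⟩).1 else u) = _
            rw [dif_pos h]
          rw [← h4, h2] at h3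
          show (if h : (par F lam u).card = R then (f ⟨u, h⟩).2 else 0) ∈ _
          rw [dif_pos h]
          exact h3.2
        · intro u hu w hw huw
          rw [mem_coe, mem_filter, inter_univ] at hu hw
          obtain ⟨-, h, h2⟩ := hu
          obtain ⟨-, h', h2'⟩ := hw
          have h3 : (if h : (par F lam u).card = R then (f ⟨u, h⟩).2 else 0) =
            (if h : (par F lam w).card = R then (f ⟨w, h⟩).2 else 0) := huw
          rw [dif_pos h, dif_pos h'] at h3
          have h4 : o u = (f ⟨u, h⟩).1 := by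
            show (if h : (par F lam u).card = R then (f ⟨u, h⟩).1 else u) = _
            rw [dif_pos h]
          have h5 : o w = (f ⟨w, h'⟩).1 := by
            show (if h : (par F lam w).card = R then (f ⟨w, h⟩).1 else w) = _
            rw [dif_pos h']
          have h6 : (f ⟨u, h⟩).1 = (f ⟨w, h'⟩).1 := by rw [← h4, ← h5, h2, h2']
          have h7 : f ⟨u, h⟩ = f ⟨w, h'⟩ := Sigma.ext h6 (heq_of_eq h3)
          exact congrArg Subtype.val (hf h7)
      have h1 := hcap v
      have h2 := hpR v
      have h3 : (m * (par F lam v).card : ℕ) ≤ m * R := Nat.mul_le_mul_left m h2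
      have h4 : ((univ.filter (fun u => (par F lam u ∩ univ).card = R ∧ o u = v)).card : ℤ) ≤
          (cap v : ℤ) := by exact_mod_cast hcard
      have h5 : ((m * (par F lam v).card : ℕ) : ℤ) ≤ ((m * R : ℕ) : ℤ) := by exact_mod_cast h3
      have h6 : (R : ℤ) * N = B + 1 := by exact_mod_cast hB
      have h7 : (((univ.filter (fun u => (par F lam u ∩ univ).card = R ∧ o u = v)).card +
          N * (par F lam v).card : ℕ) : ℤ) ≤ ((R * N + m * R : ℕ) : ℤ) := by
        push_cast at h5 ⊢
        nlinarith
      exact_mod_cast h7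

end Pool.Agent.H55.SR
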