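import Pool.Agent.H55.SR.Lev

/-!
# Splitting a structure of parents and owners
-/

namespace Pool.Agent.H55.SR

open Finset
open scoped Classical

variable {V : Type*} [Fintype V]

/-- `P u` is the set of the parents of `u`, `o u` is the owner of `u`.  In a set `S` which is good
with parameter `R` every vertex has at most `R` parents in `S`, the vertices with exactly `R`
parents in `S` are owned by one of them, and the number of vertices of this kind owned by `v` is
at most `(R - p) N + e` where `p` is the number of parents of `v` in `S`. -/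
structure Good (P : V → Finset V) (o : V → V) (N e : ℕ) (S : Finset V) (R : ℕ) : Prop where
  g1 : ∀ u ∈ S, (P u ∩ S).card ≤ R
  g2 : ∀ u ∈ S, (P u ∩ S).card = R → o u ∈ P u ∩ S
  g3 : ∀ v ∈ S, (S.filter (fun u => (P u ∩ S).card = R ∧ o u = v)).card + N * (P v ∩ S).card ≤
    R * N + e

/-- The number of parents of `v` in `S` which are in `A`. -/
noncomputable def nA (P : V → Finset V) (S : Finset V) (v : V) (A : Set V) : ℕ :=
  ((P v ∩ S).filter (fun w => w ∈ A)).card

/-- The number of parents of `v` in `S` which are not in `A`. -/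
noncomputable def nB (P : V → Finset V) (S : Finset V) (v : V) (A : Set V) : ℕ :=
  ((P v ∩ S).filter (fun w => w ∉ A)).card

/-- The owned vertices of `v` all of whose other parents leave few in `A`. -/
noncomputable def nW (P : V → Finset V) (o : V → V) (S : Finset V) (R R1 : ℕ) (v : V)
    (A : Set V) : Finset V :=
  S.filter (fun u => (P u ∩ S).card = R ∧ o u = v ∧
    ((P u ∩ S).filter (fun w => w ∈ A ∧ w ≠ v)).card < R1)

/-- The rule for the side of `v`. -/
def SRule (P : V → Finset V) (o : V → V) (N e : ℕ) (S : Finset V) (R1 R2 : ℕ) (v : V)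
    (A : Set V) : Prop :=
  v ∈ S ∧ ((nA P S v A = R1 ∧ nB P S v A = R2 ∧ o v ∈ A ∧ o v ∈ P v) ∨
    (nA P S v A < R1 ∧ (R2 ≤ nB P S v A ∨
      (nW P o S (R1 + R2) R1 v A).card + N * nA P S v A ≤ R1 * N + e)))

variable {P : V → Finset V} {o : V → V} {N e : ℕ} {S : Finset V} {R1 R2 : ℕ} {lam : V → ℕ}

lemma nA_congr (hP : ∀ u, ∀ w ∈ P u, lam u < lam w) {v : V} {A A' : Set V}
    (h : ∀ w, lam v < lam w → (w ∈ A ↔ w ∈ A')) : nA P S v A = nA P S v A' := by
  unfold nA
  congr 1
  refine filter_congr fun w hw => h w (hP v w (mem_inter.mp hw).1)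

lemma nB_congr (hP : ∀ u, ∀ w ∈ P u, lam u < lam w) {v : V} {A A' : Set V}
    (h : ∀ w, lam v < lam w → (w ∈ A ↔ w ∈ A')) : nB P S v A = nB P S v A' := by
  unfold nB
  congr 1
  refine filter_congr fun w hw => not_congr (h w (hP v w (mem_inter.mp hw).1))

lemma nAB (v : V) (A : Set V) : nA P S v A + nB P S v A = (P v ∩ S).card := by
  unfold nA nB
  exact card_filter_add_card_filter_not _

lemma rule_congr (hP : ∀ u, ∀ w ∈ P u, lam u < lam w)
    (ho : ∀ u, o u ∈ P u → lam (o u) = lam u + 1) (hG : Good P o N e S (R1 + R2)) (v : V)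
    (A A' : Set V) (h : ∀ w, lam v ≤ lam w → (w ∈ A ↔ w ∈ A')) :
    SRule P o N e S R1 R2 v A → SRule P o N e S R1 R2 v A' := by
  have hlt : ∀ w, lam v < lam w → (w ∈ A ↔ w ∈ A') := fun w hw => h w hw.le
  have hW : nW P o S (R1 + R2) R1 v A = nW P o S (R1 + R2) R1 v A' := by
    unfold nW
    refine filter_congr fun u hu => ?_
    refine and_congr_right fun h1 => and_congr_right fun h2 => ?_
    have h3 := (mem_inter.mp (hG.g2 u hu h1)).1
    have h4 := ho u h3
    rw [h2] at h4
    have h5 : (P u ∩ S).filter (fun w => w ∈ A ∧ w ≠ v) =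
        (P u ∩ S).filter (fun w => w ∈ A' ∧ w ≠ v) := by
      refine filter_congr fun w hw => and_congr_left fun _ => h w ?_
      have := hP u w (mem_inter.mp hw).1
      omega
    rw [h5]
  rintro ⟨hS, h1 | h1⟩
  · refine ⟨hS, Or.inl ⟨?_, ?_, ?_, h1.2.2.2⟩⟩
    · rw [← nA_congr hP hlt]
      exact h1.1
    · rw [← nB_congr hP hlt]
      exact h1.2.1
    · exact (hlt _ (hP v _ h1.2.2.2)).mp h1.2.2.1
  · refine ⟨hS, Or.inr ⟨?_, ?_⟩⟩
    · rw [← nA_congr hP hlt]
      exact h1.1
    · rw [← nA_congr hP hlt, ← nB_congr hP hlt, ← hW]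
      exact h1.2

lemma rule_mono (hP : ∀ u, ∀ w ∈ P u, lam u < lam w) (v : V)
    (A A' : Set V) (hAA : A ⊆ A') (h : ∀ w, lam v < lam w → (w ∈ A ↔ w ∈ A')) :
    SRule P o N e S R1 R2 v A → SRule P o N e S R1 R2 v A' := by
  have hW : (nW P o S (R1 + R2) R1 v A').card ≤ (nW P o S (R1 + R2) R1 v A).card := by
    unfold nW
    refine card_le_card ?_
    intro u hu
    rw [mem_filter] at hu ⊢
    refine ⟨hu.1, hu.2.1, hu.2.2.1, lt_of_le_of_lt (card_le_card ?_) hu.2.2.2⟩
    intro w hw
    rw [mem_filter] at hw ⊢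
    exact ⟨hw.1, hAA hw.2.1, hw.2.2⟩
  rintro ⟨hS, h1 | h1⟩
  · refine ⟨hS, Or.inl ⟨?_, ?_, hAA h1.2.2.1, h1.2.2.2⟩⟩
    · rw [← nA_congr hP h]
      exact h1.1
    · rw [← nB_congr hP h]
      exact h1.2.1
  · refine ⟨hS, Or.inr ⟨?_, ?_⟩⟩
    · rw [← nA_congr hP h]
      exact h1.1
    · rcases h1.2 with h2 | h2
      · left
        rw [← nB_congr hP h]
        exact h2
      · right
        rw [← nA_congr hP h]
        omega

/-- A good set with parameter `R1 + R2` is the disjoint union of a good set with parameter `R1`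
and a good set with parameter `R2`. -/
theorem split (hP : ∀ u, ∀ w ∈ P u, lam u < lam w)
    (ho : ∀ u, o u ∈ P u → lam (o u) = lam u + 1) (hG : Good P o N e S (R1 + R2)) :
    ∃ A B : Finset V, A ∪ B = S ∧ Disjoint A B ∧ Good P o N e A R1 ∧ Good P o N e B R2 := by
  obtain ⟨A, hA⟩ := level_fix lam (fun v A => SRule P o N e S R1 R2 v A) (univ.sup lam + 1)
    (fun v => Nat.lt_succ_of_le (le_sup (mem_univ v)))
    (fun v A A' h => rule_congr hP ho hG v A A' h)
    (fun v A A' h h' => rule_mono hP v A A' h h')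
  have eA : ∀ u, P u ∩ S.filter (fun w => w ∈ A) = (P u ∩ S).filter (fun w => w ∈ A) := by
    intro u
    ext w
    simp only [mem_inter, mem_filter]
    tauto
  have eB : ∀ u, P u ∩ S.filter (fun w => w ∉ A) = (P u ∩ S).filter (fun w => w ∉ A) := by
    intro u
    ext w
    simp only [mem_inter, mem_filter]
    tauto
  have cA : ∀ u, (P u ∩ S.filter (fun w => w ∈ A)).card = nA P S u A := fun u => by
    rw [eA]
    rfl
  have cB : ∀ u, (P u ∩ S.filter (fun w => w ∉ A)).card = nB P S u A := fun u => by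
    rw [eB]
    rfl
  -- the owned vertices
  set O : V → Finset V := fun v => S.filter (fun u => (P u ∩ S).card = R1 + R2 ∧ o u = v) with hO
  have hg3 : ∀ v ∈ S, (O v).card + N * (nA P S v A + nB P S v A) ≤ (R1 + R2) * N + e := by
    intro v hv
    have := hG.g3 v hv
    rw [← nAB v A] at this
    exact this
  have hOA : ∀ v, v ∈ A → (S.filter (fun w => w ∈ A)).filter
      (fun u => (P u ∩ S.filter (fun w => w ∈ A)).card = R1 ∧ o u = v) ⊆
      nW P o S (R1 + R2) R1 v A := by
    intro v hvA u hu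
    rw [mem_filter, mem_filter, cA] at hu
    obtain ⟨⟨huS, huA⟩, hu1, hu2⟩ := hu
    have hr := (hA u).mp huA
    rcases hr.2 with h1 | h1
    · have hc : (P u ∩ S).card = R1 + R2 := by rw [← nAB u A, h1.1, h1.2.1]
      have hmem := hG.g2 u huS hc
      rw [hu2] at hmem
      unfold nW
      rw [mem_filter]
      refine ⟨huS, hc, hu2, ?_⟩
      rw [← hu1]
      unfold nA
      refine card_lt_card ?_
      rw [ssubset_iff_of_subset]
      · refine ⟨v, ?_, ?_⟩
        · rw [mem_filter]
          exact ⟨hmem, hvA⟩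
        · rw [mem_filter]
          exact fun h => h.2.2 rfl
      · intro w hw
        rw [mem_filter] at hw ⊢
        exact ⟨hw.1, hw.2.1⟩
    · omega
  have hOB : ∀ v, v ∉ A → (S.filter (fun w => w ∉ A)).filter
      (fun u => (P u ∩ S.filter (fun w => w ∉ A)).card = R2 ∧ o u = v) ⊆
      O v \ nW P o S (R1 + R2) R1 v A := by
    intro v hvA u hu
    rw [mem_filter, mem_filter, cB] at hu
    obtain ⟨⟨huS, huA⟩, hu1, hu2⟩ := hu
    have hle := hG.g1 u huS
    rw [← nAB u A, hu1] at hle
    have hge : ¬ nA P S u A < R1 := by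
      intro hlt
      exact huA ((hA u).mpr ⟨huS, Or.inr ⟨hlt, Or.inl hu1.ge⟩⟩)
    have ha : nA P S u A = R1 := by omega
    have hc : (P u ∩ S).card = R1 + R2 := by rw [← nAB u A, ha, hu1]
    have hmem := hG.g2 u huS hc
    rw [hu2] at hmem
    rw [mem_sdiff]
    refine ⟨mem_filter.mpr ⟨huS, hc, hu2⟩, ?_⟩
    unfold nW
    rw [mem_filter]
    rintro ⟨-, -, -, h3⟩
    have h4 : (P u ∩ S).filter (fun w => w ∈ A ∧ w ≠ v) = (P u ∩ S).filter (fun w => w ∈ A) := by
      refine filter_congr fun w _ => ⟨fun h => h.1, fun h => ⟨h, ?_⟩⟩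
      rintro rfl
      exact hvA h
    rw [h4] at h3
    unfold nA at ha
    omega
  have hWO : ∀ v, nW P o S (R1 + R2) R1 v A ⊆ O v := by
    intro v u hu
    unfold nW at hu
    rw [mem_filter] at hu
    exact mem_filter.mpr ⟨hu.1, hu.2.1, hu.2.2.1⟩
  refine ⟨S.filter (fun w => w ∈ A), S.filter (fun w => w ∉ A),
    filter_union_filter_not_eq _ _, disjoint_filter_filter_not _ _ _, ?_, ?_⟩
  · refine ⟨fun u hu => ?_, fun u hu hc => ?_, fun v hv => ?_⟩
    · rw [mem_filter] at hu
      have hr := (hA u).mp hu.2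
      rw [cA]
      rcases hr.2 with h1 | h1
      · exact h1.1.le
      · exact h1.1.le
    · rw [mem_filter] at hu
      rw [cA] at hc
      have hr := (hA u).mp hu.2
      rcases hr.2 with h1 | h1
      · have hc' : (P u ∩ S).card = R1 + R2 := by rw [← nAB u A, h1.1, h1.2.1]
        have hmem := hG.g2 u hu.1 hc'
        rw [eA, mem_filter]
        exact ⟨hmem, h1.2.2.1⟩
      · omega
    · rw [mem_filter] at hv
      have hr := (hA v).mp hv.2
      have h3 := hg3 v hv.1
      have h4 := card_le_card (hOA v hv.2)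
      have h5 := card_le_card (hWO v)
      rw [cA v]
      rcases hr.2 with h1 | ⟨h1, h2 | h2⟩
      · have e1 : N * (nA P S v A + nB P S v A) = (R1 + R2) * N := by
          rw [h1.1, h1.2.1, mul_comm]
        have e2 : N * nA P S v A = R1 * N := by rw [h1.1, mul_comm]
        omega
      · have e1 : N * (nA P S v A + nB P S v A) = N * nA P S v A + N * nB P S v A := mul_add _ _ _
        have e2 : (R1 + R2) * N = R1 * N + R2 * N := add_mul _ _ _
        have e3 : R2 * N ≤ N * nB P S v A := by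
          rw [mul_comm]
          exact Nat.mul_le_mul_left N h2
        omega
      · omega
  · refine ⟨fun u hu => ?_, fun u hu hc => ?_, fun v hv => ?_⟩
    · rw [mem_filter] at hu
      rw [cB]
      by_contra hlt
      rw [not_le] at hlt
      have hle := hG.g1 u hu.1
      rw [← nAB u A] at hle
      exact hu.2 ((hA u).mpr ⟨hu.1, Or.inr ⟨by omega, Or.inl hlt.le⟩⟩)
    · rw [mem_filter] at hu
      rw [cB] at hc
      have hle := hG.g1 u hu.1
      rw [← nAB u A, hc] at hle
      have hge : ¬ nA P S u A < R1 := fun hlt =>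
        hu.2 ((hA u).mpr ⟨hu.1, Or.inr ⟨hlt, Or.inl hc.ge⟩⟩)
      have ha : nA P S u A = R1 := by omega
      have hc' : (P u ∩ S).card = R1 + R2 := by rw [← nAB u A, ha, hc]
      have hmem := hG.g2 u hu.1 hc'
      rw [eB, mem_filter]
      refine ⟨hmem, fun hoA => ?_⟩
      exact hu.2 ((hA u).mpr ⟨hu.1, Or.inl ⟨ha, hc, hoA, (mem_inter.mp hmem).1⟩⟩)
    · rw [mem_filter] at hv
      have h3 := hg3 v hv.1
      have h4 := card_le_card (hOB v hv.2)
      have h5 : (O v \ nW P o S (R1 + R2) R1 v A).card + (nW P o S (R1 + R2) R1 v A).card =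
          (O v).card := card_sdiff_add_card_eq_card (hWO v)
      rw [cB v]
      have e1 : N * (nA P S v A + nB P S v A) = N * nA P S v A + N * nB P S v A := mul_add _ _ _
      have e2 : (R1 + R2) * N = R1 * N + R2 * N := add_mul _ _ _
      by_cases h1 : nA P S v A < R1
      · have h6 : ¬ ((nW P o S (R1 + R2) R1 v A).card + N * nA P S v A ≤ R1 * N + e) :=
          fun h => hv.2 ((hA v).mpr ⟨hv.1, Or.inr ⟨h1, Or.inr h⟩⟩)
        omega
      · have e3 : R1 * N ≤ N * nA P S v A := by
          rw [mul_comm]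
          exact Nat.mul_le_mul_left N (by omega)
        omega

end Pool.Agent.H55.SR
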