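import Pool.Agent.H55.SR.Low

/-!
# The uniform second order bound for bipartite graphs
-/

namespace Pool.Agent.H55.SR

open Finset
open Pool.Agent.Results.MP_09f43a_co.MadPartition
open Pool.Agent.H68.CR

section Bip

variable {W : Type} [Finite W] (G : SimpleGraph W) (Y : Set W) {d : ℕ}

lemma dstar_le (hY : ∀ a b, G.Adj a b → (a ∈ Y ↔ b ∉ Y))
    (hd : ∀ y ∈ Y, (G.neighborSet y).ncard ≤ d) : dstar G ≤ d := by
  unfold dstar
  refine csSup_le' ?_
  rintro k ⟨H, ⟨v, hv⟩, hH⟩
  have key : ∀ w ∈ H.verts, w ∈ Y → k ≤ d := by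
    intro w hw hwY
    refine (hH w hw).trans (le_trans ?_ (hd w hwY))
    exact Set.ncard_le_ncard (H.neighborSet_subset w) (Set.toFinite _)
  by_cases hvY : v ∈ Y
  · exact key v hv hvY
  · rcases (H.neighborSet v).eq_empty_or_nonempty with h | ⟨u, hu⟩
    · have := hH v hv
      rw [h, Set.ncard_empty] at this
      omega
    · refine key u (H.edge_vert (H.adj_symm hu)) ?_
      by_contra hu'
      exact hvY ((hY v u (H.adj_sub hu)).mpr hu')

open scoped Classical in
/-- In a densest set `s` of a bipartite graph with `Y`-degrees at most `d`, and with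
`mad G > 2 d - 2`, all the vertices of `Y` have `d` neighbours outside `Y` in `s`, and the two
parts of `s` are very unbalanced. -/
lemma densest (hY : ∀ a b, G.Adj a b → (a ∈ Y ↔ b ∉ Y))
    (hd : ∀ y ∈ Y, (G.neighborSet y).ncard ≤ d) (hd1 : 1 ≤ d)
    (hmad : 2 * (d : ℝ) - 1 < mad G) :
    ∃ Xf Yf : Finset W, 1 ≤ Xf.card ∧ (∀ y ∈ Yf, d ≤ (Xf.filter (fun x => G.Adj y x)).card) ∧
      2 * (d : ℝ) * Xf.card ≤ (2 * d - mad G) * (Xf.card + Yf.card) := by
  have hd1' : (1 : ℝ) ≤ d := by exact_mod_cast hd1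
  have hne : Nonempty W := by
    by_contra hcon
    rw [not_nonempty_iff] at hcon
    have := mad_of_isEmpty G
    linarith
  obtain ⟨s, hs, hsE⟩ := exists_densest G
  have hspos : (0 : ℝ) < s.card := by exact_mod_cast hs.card_pos
  set Xf := s.filter (fun v => v ∉ Y) with hXf
  set Yf := s.filter (fun v => v ∈ Y) with hYf
  have hcards : Yf.card + Xf.card = s.card := card_filter_add_card_filter_not _
  have hdg : ∀ y ∈ Yf, (Xf.filter (fun x => G.Adj y x)) = s.filter (fun x => G.Adj y x) := by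
    intro y hy
    ext x
    simp only [hXf, mem_filter]
    refine ⟨fun h => ⟨h.1.1, h.2⟩, fun h => ⟨⟨h.1, ?_⟩, h.2⟩⟩
    exact (hY y x h.2).mp (mem_filter.mp hy).2
  have hdeg : ∀ y ∈ Yf, d ≤ (Xf.filter (fun x => G.Adj y x)).card := by
    intro y hy
    rw [hdg y hy]
    have hys : y ∈ s := (mem_filter.mp hy).1
    have h1 := E2_erase G s hys
    have h2 := E2_le_mad G (s.erase y)
    rw [card_erase_of_mem hys] at h2
    have h3 : (((s.card - 1 : ℕ)) : ℝ) = s.card - 1 := by
      rw [Nat.cast_sub (Nat.succ_le_of_lt hs.card_pos)]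
      simp
    rw [h3] at h2
    have h4 : (dg G (s : Set W) y : ℝ) = ((s.filter (fun x => G.Adj y x)).card : ℝ) := by
      unfold dg
      rw [← Set.ncard_coe_finset]
      congr 2
      ext u
      simp
    rw [h4] at h1
    have h5 : 2 * (d : ℝ) - 1 < 2 * ((s.filter (fun x => G.Adj y x)).card : ℝ) := by nlinarith
    have h6 : (2 * d : ℤ) - 1 < 2 * ((s.filter (fun x => G.Adj y x)).card : ℤ) := by
      have : (((2 * d : ℤ) - 1 : ℤ) : ℝ) <
          ((2 * ((s.filter (fun x => G.Adj y x)).card : ℤ) : ℤ) : ℝ) := by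
        push_cast
        exact h5
      exact_mod_cast this
    omega
  have hE : E2 G s ≤ 2 * d * Yf.card := by
    have e1 : E2 G s = ∑ u ∈ Yf, ∑ v ∈ s, (if G.Adj u v then (1 : ℝ) else 0) +
        ∑ u ∈ Xf, ∑ v ∈ s, (if G.Adj u v then (1 : ℝ) else 0) := by
      unfold E2
      rw [hYf, hXf, sum_filter_add_sum_filter_not]
    have e2 : ∀ u ∈ Yf, ∑ v ∈ s, (if G.Adj u v then (1 : ℝ) else 0) ≤ d := by
      intro u hu
      rw [sum_boole]
      have h1 : (s.filter (fun v => G.Adj u v)).card ≤ d := by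
        refine le_trans ?_ (hd u (mem_filter.mp hu).2)
        rw [← Set.ncard_coe_finset]
        refine Set.ncard_le_ncard ?_ (Set.toFinite _)
        intro v hv
        rw [mem_coe, mem_filter] at hv
        exact hv.2
      exact_mod_cast h1
    have e3 : ∑ u ∈ Xf, ∑ v ∈ s, (if G.Adj u v then (1 : ℝ) else 0) ≤
        ∑ u ∈ Yf, ∑ v ∈ s, (if G.Adj u v then (1 : ℝ) else 0) := by
      have h1 : ∀ u ∈ Xf, ∑ v ∈ s, (if G.Adj u v then (1 : ℝ) else 0) =
          ∑ v ∈ Yf, (if G.Adj u v then (1 : ℝ) else 0) := by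
        intro u hu
        rw [hYf, sum_filter]
        refine sum_congr rfl fun v _ => ?_
        by_cases ha : G.Adj u v
        · have : v ∈ Y := by
            by_contra hv
            exact (mem_filter.mp hu).2 ((hY u v ha).mpr hv)
          rw [if_pos ha, if_pos this]
        · rw [if_neg ha]
          split_ifs <;> rfl
      rw [sum_congr rfl h1, sum_comm]
      refine sum_le_sum fun u _ => ?_
      calc ∑ v ∈ Xf, (if G.Adj v u then (1 : ℝ) else 0)
          = ∑ v ∈ Xf, (if G.Adj u v then (1 : ℝ) else 0) := by simp only [G.adj_comm]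
        _ ≤ _ := sum_le_sum_of_subset_of_nonneg (filter_subset _ _)
          fun v _ _ => by split_ifs <;> norm_num
    have e4 : ∑ u ∈ Yf, ∑ v ∈ s, (if G.Adj u v then (1 : ℝ) else 0) ≤ d * Yf.card := by
      refine (sum_le_sum e2).trans (le_of_eq ?_)
      rw [sum_const, nsmul_eq_mul, mul_comm]
    rw [e1]
    linarith
  rw [hsE] at hE
  have hcR : (Yf.card : ℝ) + Xf.card = s.card := by exact_mod_cast hcards
  refine ⟨Xf, Yf, ?_, hdeg, ?_⟩
  · by_contra hX0
    have hX : Xf.card = 0 := by omega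
    have hYpos : 0 < Yf.card := by
      have := hs.card_pos
      omega
    obtain ⟨y, hy⟩ := card_pos.mp hYpos
    have h1 := hdeg y hy
    rw [card_eq_zero.mp hX] at h1
    simp at h1
    omega
  · rw [← hcR] at hE
    nlinarith

end Bip

lemma params (r d : ℕ) (hr : 1 ≤ r) (hd : 1 ≤ d) (w : ℝ) (hw : (r : ℝ) * d + 4 * r + 5 < w) :
    ∃ N m : ℕ, 1 ≤ m ∧ (r * d + 1) * m ≤ N ∧
      ((d * N + m * (r * d) + r * d * N / m + d : ℕ) : ℝ) ≤ d * (2 * w ^ 2 - 2) ∧
      2 * w ^ 2 - (4 * r + 4) * w ≤ N := by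
  have hr1 : (1 : ℝ) ≤ r := by exact_mod_cast hr
  have hd1 : (1 : ℝ) ≤ d := by exact_mod_cast hd
  have hrd1 : (1 : ℝ) ≤ r * d := one_le_mul_of_one_le_of_one_le hr1 hd1
  have hwpos : 0 < w := by linarith
  set m : ℕ := ⌈w⌉₊ with hm
  set N : ℕ := ⌊2 * w ^ 2 - 3 * r * w - r - 3⌋₊ with hN
  have hm1 : w ≤ m := Nat.le_ceil w
  have hm2 : (m : ℝ) < w + 1 := Nat.ceil_lt_add_one hwpos.le
  have hw1 : 10 < w := by linarith
  have hrw : (4 * (r : ℝ) + 5) * w ≤ w * w := mul_le_mul_of_nonneg_right (by linarith) hwpos.le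
  have hrw0 : 0 ≤ (r : ℝ) * w := by positivity
  have hrw1 : (r : ℝ) ≤ r * w := le_mul_of_one_le_right (by linarith) (by linarith)
  have hbig : 0 ≤ 2 * w ^ 2 - 3 * r * w - r - 3 := by
    rw [pow_two]
    linarith
  have hN1 : (N : ℝ) ≤ 2 * w ^ 2 - 3 * r * w - r - 3 := Nat.floor_le hbig
  have hN2 : 2 * w ^ 2 - 3 * r * w - r - 4 < N := by
    have := Nat.lt_floor_add_one (2 * w ^ 2 - 3 * r * w - r - 3)
    rw [← hN] at this
    linarith
  have hN3 : 2 * w ^ 2 - (4 * r + 4) * w ≤ N := by linarith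
  have hm0 : 1 ≤ m := by
    have h1 : (1 : ℝ) ≤ m := by linarith
    exact_mod_cast h1
  have hmpos : (0 : ℝ) < m := by exact_mod_cast hm0
  refine ⟨N, m, hm0, ?_, ?_, hN3⟩
  · have h1 : ((r : ℝ) * d + 1) * m ≤ N := by
      have h2 : ((r : ℝ) * d + 1) * m ≤ (r * d + 1) * (2 * w) :=
        mul_le_mul_of_nonneg_left (by linarith) (by positivity)
      have h4 : ((r : ℝ) * d + 1 + (2 * r + 2)) * (2 * w) ≤ w * (2 * w) :=
        mul_le_mul_of_nonneg_right (by linarith) (by positivity)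
      have h5 : w * (2 * w) = 2 * w ^ 2 := by ring
      have h6 : ((r : ℝ) * d + 1 + (2 * r + 2)) * (2 * w) =
        (r * d + 1) * (2 * w) + (4 * r + 4) * w := by ring
      linarith
    exact_mod_cast h1
  · have h1 : ((r * d * N / m : ℕ) : ℝ) ≤ (r * d * N : ℕ) / (m : ℝ) := Nat.cast_div_le
    have h2 : ((r * d * N : ℕ) : ℝ) / m ≤ r * d * (2 * w) := by
      rw [div_le_iff₀ hmpos]
      push_cast
      have h3 : (N : ℝ) ≤ 2 * w * m := by
        have h4 : w * w ≤ w * m := mul_le_mul_of_nonneg_left hm1 hwpos.le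
        have h5 : 2 * w ^ 2 = 2 * (w * w) := by ring
        linarith
      calc (r : ℝ) * d * N ≤ r * d * (2 * w * m) :=
            mul_le_mul_of_nonneg_left h3 (by positivity)
        _ = _ := by ring
    push_cast
    have h4 : (m : ℝ) * (r * d) ≤ (w + 1) * (r * d) :=
      mul_le_mul_of_nonneg_right hm2.le (by positivity)
    have h5 : (d : ℝ) * N ≤ d * (2 * w ^ 2 - 3 * r * w - r - 3) :=
      mul_le_mul_of_nonneg_left hN1 (by positivity)
    have h6 : (d : ℝ) * (2 * w ^ 2 - 3 * r * w - r - 3) + (w + 1) * (r * d) +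
      r * d * (2 * w) + d = d * (2 * w ^ 2 - 2) := by ring
    linarith

lemma calc1 (r u w N : ℝ) (hr : 1 ≤ r) (hu : 0 < u) (hw : 0 < w) (hwu : w * u = 1)
    (hbig : 4 * r + 5 ≤ w) (hN : 2 * w ^ 2 - (4 * r + 4) * w ≤ N) :
    2 / N ≤ u * u + (4 * r + 4) * (u * u * u) := by
  have h0 : (4 * r + 5) * w ≤ w * w := mul_le_mul_of_nonneg_right hbig hw.le
  have hNpos : 0 < 2 * w ^ 2 - (4 * r + 4) * w := by
    rw [pow_two]
    have : 0 < w * w := by positivity
    linarith
  have h1 : 2 / N ≤ 2 / (2 * w ^ 2 - (4 * r + 4) * w) :=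
    div_le_div_of_nonneg_left (by norm_num) hNpos hN
  refine h1.trans ?_
  rw [div_le_iff₀ hNpos]
  have h3 : (u * u + (4 * r + 4) * (u * u * u)) * (2 * w ^ 2 - (4 * r + 4) * w) =
      2 * ((w * u) * (w * u)) + (4 * r + 4) * u * (2 * ((w * u) * (w * u)) - (w * u)) -
      (4 * r + 4) ^ 2 * (u * u) * (w * u) := by ring
  rw [h3, hwu]
  have h4 : (4 * r + 4) * u ≤ 1 := by
    have : (4 * r + 4) * u ≤ w * u := mul_le_mul_of_nonneg_right (by linarith) hu.le
    linarith
  have h5 : 0 ≤ (4 * r + 4) * u := by positivity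
  have h6 : ((4 * r + 4) * u) * ((4 * r + 4) * u) ≤ ((4 * r + 4) * u) * 1 :=
    mul_le_mul_of_nonneg_left h4 h5
  have h7 : (4 * r + 4) ^ 2 * (u * u) = ((4 * r + 4) * u) * ((4 * r + 4) * u) := by ring
  rw [h7]
  linarith

/-- **Uniform second order bound.** -/
theorem uniform (r d : ℕ) (hr : 1 ≤ r) (hd : 1 ≤ d) : ∃ C : ℝ, 0 < C ∧
    ∀ (W : Type) [Finite W] (G : SimpleGraph W) (Y : Set W),
      (∀ a b, G.Adj a b → (a ∈ Y ↔ b ∉ Y)) → (∀ y ∈ Y, (G.neighborSet y).ncard ≤ d) →
      0 < 2 * d - mad G ∧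
      mad G + 2 * (r - 1) * d - C * ((2 * d - mad G) * Real.sqrt (2 * d - mad G)) ≤ mcr G r ∧
      mcr G r ≤ mad G + 2 * (r - 1) * d := by
  have hr1 : (1 : ℝ) ≤ r := by exact_mod_cast hr
  have hd1 : (1 : ℝ) ≤ d := by exact_mod_cast hd
  set a : ℝ := r * d + 4 * r + 5 with ha
  have ha1 : 10 ≤ a := by nlinarith
  have ha0 : 0 < a := by linarith
  have hrd1 : (1 : ℝ) ≤ r * d := by nlinarith
  refine ⟨2 * r * d * a ^ 3 + 4 * r + 4, by positivity, ?_⟩
  intro W _ G Y hY hYd
  set th : ℝ := 2 * d - mad G with hth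
  have hupper : mcr G r ≤ mad G + 2 * (r - 1) * d := by
    refine (mcr_le_dstar G hr).trans ?_
    have h1 : (dstar G : ℝ) ≤ d := by exact_mod_cast dstar_le G Y hY hYd
    have h2 : 2 * ((r : ℝ) - 1) * dstar G ≤ 2 * (r - 1) * d :=
      mul_le_mul_of_nonneg_left h1 (by linarith)
    linarith
  by_cases hsmall : th < 1 / a ^ 2
  · have hmad : 2 * (d : ℝ) - 1 < mad G := by
      have h1 : 1 / a ^ 2 ≤ 1 := by
        rw [div_le_one (by positivity)]
        nlinarith
      rw [hth] at hsmall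
      linarith
    obtain ⟨Xf, Yf, hX1, hXY, hcard⟩ := densest G Y hY hYd hd hmad
    rw [← hth] at hcard
    have hX1' : (1 : ℝ) ≤ Xf.card := by exact_mod_cast hX1
    have hthpos : 0 < th := by
      by_contra hcon
      rw [not_lt] at hcon
      have h1 : th * (Xf.card + Yf.card : ℝ) ≤ 0 :=
        mul_nonpos_of_nonpos_of_nonneg hcon (by positivity)
      nlinarith
    set u : ℝ := Real.sqrt th with hu
    have hupos : 0 < u := Real.sqrt_pos.mpr hthpos
    have huu : u * u = th := Real.mul_self_sqrt hthpos.le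
    set w : ℝ := 1 / u with hw
    have hwpos : 0 < w := by positivity
    have hwu : w * u = 1 := by
      rw [hw]
      field_simp
    have hww : th * (w * w) = 1 := by
      rw [← huu]
      calc u * u * (w * w) = (w * u) * (w * u) := by ring
        _ = 1 := by rw [hwu]; norm_num
    have haw : a < w := by
      have h1 : th * a ^ 2 < 1 := by
        rwa [lt_div_iff₀ (by positivity)] at hsmall
      by_contra hcon
      rw [not_lt] at hcon
      have h2 : w * w ≤ a ^ 2 := by nlinarith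
      have h3 : th * (w * w) ≤ th * a ^ 2 := mul_le_mul_of_nonneg_left h2 hthpos.le
      linarith
    obtain ⟨N, m, hm0, hcond, hKR, hN3⟩ := params r d hr hd w haw
    have hfin : Xf.card * (d * N + m * (r * d) + r * d * N / m + d) < Yf.card := by
      have h1 : (Xf.card : ℝ) * ((d * N + m * (r * d) + r * d * N / m + d : ℕ) : ℝ) ≤
          Xf.card * (d * (2 * w ^ 2 - 2)) :=
        mul_le_mul_of_nonneg_left hKR (by positivity)
      have h2 : (Xf.card : ℝ) * (d * (2 * w ^ 2) - 1) ≤ Yf.card := by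
        have h3 : (w * w) * (2 * (d : ℝ) * Xf.card) ≤
            (w * w) * (th * (Xf.card + Yf.card)) :=
          mul_le_mul_of_nonneg_left hcard (by positivity)
        have h4 : (w * w) * (th * ((Xf.card : ℝ) + Yf.card)) = Xf.card + Yf.card := by
          calc (w * w) * (th * ((Xf.card : ℝ) + Yf.card)) =
              (th * (w * w)) * (Xf.card + Yf.card) := by ring
            _ = _ := by rw [hww, one_mul]
        rw [h4] at h3
        nlinarith
      have h5 : (Xf.card : ℝ) * (d * (2 * w ^ 2 - 2)) < Xf.card * (d * (2 * w ^ 2) - 1) := by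
        refine mul_lt_mul_of_pos_left ?_ (by linarith)
        nlinarith
      have h6 : ((Xf.card * (d * N + m * (r * d) + r * d * N / m + d) : ℕ) : ℝ) <
          (Yf.card : ℝ) := by
        push_cast at h1 ⊢
        linarith
      exact_mod_cast h6
    have hlow := mcr_lower_XY G Xf Yf hr hd hm0 hcond hXY hfin
    refine ⟨hthpos, ?_, hupper⟩
    have h2 : 2 / (N : ℝ) ≤ u * u + (4 * r + 4) * (u * u * u) :=
      calc1 r u w N hr1 hupos hwpos hwu (by linarith) hN3
    have h6 : th * u = u * u * u := by rw [← huu]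
    have h7 : 0 ≤ 2 * r * d * a ^ 3 * (u * u * u) := by positivity
    have h8 : mad G = 2 * d - th := by rw [hth]; ring
    rw [h6, h8]
    rw [huu] at h2
    nlinarith
  · rw [not_lt] at hsmall
    have hthpos : 0 < th := lt_of_lt_of_le (by positivity) hsmall
    refine ⟨hthpos, ?_, hupper⟩
    have h1 : 1 / a ≤ Real.sqrt th := by
      rw [Real.le_sqrt' (by positivity)]
      calc (1 / a) ^ 2 = 1 / a ^ 2 := by rw [div_pow, one_pow]
        _ ≤ th := hsmall
    have h2 : 1 / a ^ 2 * (1 / a) ≤ th * Real.sqrt th :=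
      mul_le_mul hsmall h1 (by positivity) hthpos.le
    have h3 : 1 / a ^ 2 * (1 / a) = 1 / a ^ 3 := by field_simp
    rw [h3] at h2
    have h4 : 2 * r * d ≤ 2 * r * d * a ^ 3 * (th * Real.sqrt th) := by
      have h5 : 2 * (r : ℝ) * d * a ^ 3 * (1 / a ^ 3) ≤ 2 * r * d * a ^ 3 * (th * Real.sqrt th) :=
        mul_le_mul_of_nonneg_left h2 (by positivity)
      have h6 : 2 * (r : ℝ) * d * a ^ 3 * (1 / a ^ 3) = 2 * r * d := by field_simp
      linarith
    have h7 : 0 ≤ (4 * (r : ℝ) + 4) * (th * Real.sqrt th) := by positivity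
    have h8 := mcr_nonneg G r
    have h9 : mad G ≤ 2 * d := by
      rw [hth] at hthpos
      linarith
    nlinarith

end Pool.Agent.H55.SR
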